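import Pool.Agent.Q73.Hd.Grow

/-!
# A planar domain with a nontrivial Hardy space of finite dimension
-/

set_option autoImplicit false

open InnerProductSpace

namespace Pool.Agent.Results.MP_4874ca_an.DichotomyFails

/-- The Hardy space `H²(D)` of an open set `D` of the plane, as a space of functions on `D`: `f` is
in it if `f` is holomorphic on `D` and there is a function `u`, harmonic on `D`, with
`|f|² ≤ u` on `D`. -/
def hardySpace (D : Set ℂ) : Submodule ℂ (D → ℂ) where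
  carrier := {f | ∃ F : ℂ → ℂ, (∀ z : D, F z = f z) ∧ DifferentiableOn ℂ F D ∧
    ∃ u : ℂ → ℝ, HarmonicOnNhd u D ∧ ∀ z ∈ D, ‖F z‖ ^ 2 ≤ u z}
  add_mem' := by
    rintro f f' ⟨F, hF, hFd, u, hu, hb⟩ ⟨F', hF', hFd', u', hu', hb'⟩
    refine ⟨fun z => F z + F' z, fun z => by
      change F z + F' z = f z + f' z
      rw [hF, hF'], hFd.add hFd',
      fun z => (2 : ℝ) • u z + (2 : ℝ) • u' z, fun z hz => ?_, fun z hz => ?_⟩
    · exact ((hu z hz).const_smul (c := (2 : ℝ))).add ((hu' z hz).const_smul (c := (2 : ℝ)))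
    · have h1 := hb z hz
      have h2 := hb' z hz
      have h3 : ‖F z + F' z‖ ≤ ‖F z‖ + ‖F' z‖ := norm_add_le _ _
      have h4 : ‖F z + F' z‖ ^ 2 ≤ (‖F z‖ + ‖F' z‖) ^ 2 := pow_le_pow_left₀ (norm_nonneg _) h3 2
      simp only [smul_eq_mul]
      nlinarith [sq_nonneg (‖F z‖ - ‖F' z‖)]
  zero_mem' := ⟨fun _ => 0, fun _ => rfl, differentiableOn_const 0, fun _ => 0,
    fun z _ => harmonicAt_const 0, fun z _ => by simp⟩
  smul_mem' := by
    rintro c f ⟨F, hF, hFd, u, hu, hb⟩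
    refine ⟨fun z => c * F z, fun z => by
      change c * F z = c * f z
      rw [hF], hFd.const_mul c,
      fun z => (‖c‖ ^ 2 : ℝ) • u z, fun z hz => (hu z hz).const_smul, fun z hz => ?_⟩
    change ‖c * F z‖ ^ 2 ≤ ‖c‖ ^ 2 * u z
    rw [norm_mul, mul_pow]
    exact mul_le_mul_of_nonneg_left (hb z hz) (by positivity)

/-- **Theorem (negative answer to Q1).**  There is a planar domain `D` (a nonempty connected open
set) such that `H²(D)` is finite-dimensional and of dimension at least `2`. -/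
theorem result : ∃ D : Set ℂ, IsOpen D ∧ IsConnected D ∧ FiniteDimensional ℂ (hardySpace D) ∧
    2 ≤ Module.finrank ℂ (hardySpace D) := by
  obtain ⟨r₀, h0, M, -, hrD, hposD, -, -⟩ := Q73.Hardy.growth
  refine ⟨Q73.Hardy.D, Q73.Hardy.D_open, ⟨⟨_, hrD⟩, Q73.Hardy.D_conn⟩, ?_⟩
  have hfin : FiniteDimensional ℂ (hardySpace Q73.Hardy.D) := by
    obtain ⟨m, hm⟩ := Q73.Hardy.structure_thm
    set φ : ℕ → (Q73.Hardy.D → ℂ) := fun k z => (z : ℂ) ^ k / (z : ℂ) ^ m with hφ
    set W : Submodule ℂ (Q73.Hardy.D → ℂ) :=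
      Submodule.span ℂ (φ '' (Finset.range (2 * m + 1) : Set ℕ)) with hW
    have hWfin : FiniteDimensional ℂ W :=
      FiniteDimensional.span_of_finite ℂ ((Finset.finite_toSet _).image φ)
    have hle : hardySpace Q73.Hardy.D ≤ W := by
      rintro f ⟨F, hF, hFd, u, hu, hb⟩
      obtain ⟨c, hc⟩ := hm F hFd ⟨u, hu, hb⟩
      have e : f = ∑ k ∈ Finset.range (2 * m + 1), c k • φ k := by
        funext z
        rw [← hF z, hc z z.2, Finset.sum_apply]
        rfl
      rw [e]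
      refine Submodule.sum_mem _ fun k hk => Submodule.smul_mem _ _ ?_
      exact Submodule.subset_span ⟨k, hk, rfl⟩
    exact Submodule.finiteDimensional_of_le hle
  refine ⟨hfin, ?_⟩
  have h1 : (fun _ => 1 : Q73.Hardy.D → ℂ) ∈ hardySpace Q73.Hardy.D :=
    ⟨fun _ => 1, fun _ => rfl, differentiableOn_const 1, fun _ => 1,
      fun z _ => harmonicAt_const 1, fun z _ => by simp⟩
  have h2 : (fun z => (z : ℂ) : Q73.Hardy.D → ℂ) ∈ hardySpace Q73.Hardy.D := by
    obtain ⟨C, hC, hmaj⟩ := Q73.Hardy.majorant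
    refine ⟨fun z => z, fun _ => rfl, differentiableOn_id,
      fun z => 1 + C • Q73.Hardy.v (z ^ 7), fun z hz => ?_, fun z _ => ?_⟩
    · exact (harmonicAt_const 1).add ((Q73.Hardy.u_harm hz).const_smul (c := C))
    · simpa using hmaj z
  have hneg : -(r₀ : ℂ) ∈ Q73.Hardy.D := by
    refine hposD 0 _ ?_
    rw [norm_neg, Complex.norm_real, Real.norm_eq_abs, abs_of_pos h0, pow_zero, one_mul]
  have hrc : (r₀ : ℂ) ≠ 0 := Complex.ofReal_ne_zero.2 h0.ne'
  have hli : LinearIndependent ℂ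
      ![(⟨_, h1⟩ : hardySpace Q73.Hardy.D), (⟨_, h2⟩ : hardySpace Q73.Hardy.D)] := by
    rw [LinearIndependent.pair_iff]
    intro s t hst
    have h3 := congrArg Subtype.val hst
    have h4 := congrFun h3 ⟨(r₀ : ℂ), hrD⟩
    have h5 := congrFun h3 ⟨-(r₀ : ℂ), hneg⟩
    simp only [Submodule.coe_add, Submodule.coe_smul, Pi.add_apply, Pi.smul_apply, smul_eq_mul,
      mul_one, Submodule.coe_zero, Pi.zero_apply] at h4 h5
    have h6 : t * (r₀ : ℂ) = 0 := by linear_combination (h4 - h5) / 2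
    have h7 : t = 0 := (mul_eq_zero.1 h6).resolve_right hrc
    rw [h7, zero_mul, add_zero] at h4
    exact ⟨h4, h7⟩
  have h8 := hli.fintype_card_le_finrank
  simpa using h8

end Pool.Agent.Results.MP_4874ca_an.DichotomyFails
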